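import Pool.Agent.helper14.AV.Spec3

/-!
# Project AV (MP_801ee0_co), row PRO
-/

set_option autoImplicit false

namespace Pool.Agent.helper14.AV

theorem PRO (hTRS : TRS_stmt) (hSWP : SWP_stmt) : PRO_stmt := by
  intro n P Q A B hcv hd hAB k
  have hA : ∀ i, ∃ α : ℝ, 0 ≤ α ∧ α ≤ 1 ∧ A i = P i + α • (Q i - P i) := by
    intro i
    have h := (hAB i).2.1
    rw [segment_eq_image'] at h
    obtain ⟨α, hα, h2⟩ := h
    exact ⟨α, hα.1, hα.2, h2.symm⟩
  have hB : ∀ i, ∃ β : ℝ, 0 ≤ β ∧ β ≤ 1 ∧ B i = P i + β • (Q i - P i) := by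
    intro i
    have h := (hAB i).2.2
    rw [segment_eq_image'] at h
    obtain ⟨β, hβ, h2⟩ := h
    exact ⟨β, hβ.1, hβ.2, h2.symm⟩
  choose α hα0 hα1 hα using hA
  choose β hβ0 hβ1 hβ using hB
  have hne : ∀ i, α i ≠ β i := by
    intro i h
    apply (hAB i).1
    rw [hα, hβ, h]
  have hS : Short P Q (fun i => if decide (α i < β i) then A i else B i)
      (fun i => if decide (α i < β i) then B i else A i) := by
    intro i
    by_cases h : α i < β i
    · refine ⟨α i, β i, hα0 i, h, hβ1 i, ?_, ?_⟩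
      · simp only [h, decide_true, if_true]
        exact hα i
      · simp only [h, decide_true, if_true]
        exact hβ i
    · have h2 : β i < α i := lt_of_le_of_ne (not_lt.1 h) (hne i).symm
      refine ⟨β i, α i, hβ0 i, h2, hα1 i, ?_, ?_⟩
      · simp only [h, decide_false]
        exact hβ i
      · simp only [h, decide_false]
        exact hα i
  have h1 := hTRS n P Q _ _ hcv hd hS k
  have h2 := hSWP n A B (fun i => decide (α i < β i)) k
  exact ⟨fun h => h2.1 (h1.1 h), fun h => h2.2 (h1.2 h)⟩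

end Pool.Agent.helper14.AV
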